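import Pool.Agent.Helper16.MD.Stmts

set_option autoImplicit false

open Finset Filter
open scoped ComplexConjugate

namespace Pool.Agent.Helper16.MD

theorem bil_ed_add {d : ℕ} [NeZero d] (x y : ZMod d) : ed (x + y) = ed x * ed y := by
  unfold ed
  exact AddChar.map_add_eq_mul _ _ _

theorem bil_ed_conj {d : ℕ} [NeZero d] (x : ZMod d) : conj (ed x) = ed (-x) := by
  unfold ed
  rw [AddChar.map_neg_eq_conj]

theorem bil_ed_norm {d : ℕ} [NeZero d] (x : ZMod d) : ‖ed x‖ = 1 := by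
  unfold ed
  exact AddChar.norm_apply _ _

theorem bil_ed_zero {d : ℕ} [NeZero d] : ed (0 : ZMod d) = 1 := by
  unfold ed
  exact AddChar.map_zero_eq_one _

theorem bil_orth {d : ℕ} [NeZero d] (a : ZMod d) :
    ∑ u : ZMod d, ed (u * a) = if a = 0 then (d : ℂ) else 0 := by
  unfold ed
  rw [AddChar.sum_mulShift a (ZMod.isPrimitive_stdAddChar d), ZMod.card]
  split_ifs <;> simp

theorem bil_par {d : ℕ} [NeZero d] (b : ZMod d) (hb : IsUnit b) (s : ZMod d → ℂ) :
    ∑ u : ZMod d, ‖∑ v : ZMod d, s v * ed (b * u * v)‖ ^ 2 = (d : ℝ) * ∑ v : ZMod d, ‖s v‖ ^ 2 := by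
  have h : ((∑ u : ZMod d, ‖∑ v : ZMod d, s v * ed (b * u * v)‖ ^ 2 : ℝ) : ℂ) =
      (((d : ℝ) * ∑ v : ZMod d, ‖s v‖ ^ 2 : ℝ) : ℂ) := by
    push_cast
    have e1 : ∀ u : ZMod d, ((‖∑ v : ZMod d, s v * ed (b * u * v)‖ : ℝ) : ℂ) ^ 2 =
        ∑ v : ZMod d, ∑ v' : ZMod d, s v * conj (s v') * ed (u * (b * (v - v'))) := by
      intro u
      rw [← Complex.mul_conj', map_sum, Finset.sum_mul_sum]
      apply Finset.sum_congr rfl
      intro v _
      apply Finset.sum_congr rfl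
      intro v' _
      rw [map_mul, bil_ed_conj]
      have : u * (b * (v - v')) = b * u * v + -(b * u * v') := by ring
      rw [this, bil_ed_add]
      ring
    rw [Finset.sum_congr rfl (fun u _ => e1 u), Finset.sum_comm]
    rw [Finset.mul_sum]
    apply Finset.sum_congr rfl
    intro v _
    rw [Finset.sum_comm]
    have e2 : ∀ v' : ZMod d, ∑ u : ZMod d, s v * conj (s v') * ed (u * (b * (v - v'))) =
        if v' = v then (d : ℂ) * (s v * conj (s v')) else 0 := by
      intro v'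
      rw [← Finset.mul_sum, bil_orth]
      by_cases hv : v' = v
      · rw [if_pos hv, hv, sub_self, mul_zero, if_pos rfl]
        ring
      · rw [if_neg hv, if_neg, mul_zero]
        intro h0
        apply hv
        have h1 := (hb.mul_right_eq_zero).1 h0
        exact (sub_eq_zero.1 h1).symm
    rw [Finset.sum_congr rfl (fun v' _ => e2 v'), Finset.sum_ite_eq' Finset.univ v,
      if_pos (Finset.mem_univ v), Complex.mul_conj']
  exact_mod_cast h

theorem bil_fib {ι : Type} {d : ℕ} [NeZero d] (S : Finset ι) (x : ι → ZMod d) (w : ι → ℂ)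
    (hw : ∀ i, ‖w i‖ ≤ 1) :
    ∑ u : ZMod d, ‖∑ i ∈ S.filter (fun i => x i = u), w i‖ ^ 2 ≤ (JJ S x : ℝ) := by
  have h1 : ∀ u : ZMod d, ‖∑ i ∈ S.filter (fun i => x i = u), w i‖ ≤
      ((S.filter (fun i => x i = u)).card : ℝ) := by
    intro u
    refine (norm_sum_le _ _).trans ?_
    refine (Finset.sum_le_sum (fun i _ => hw i)).trans ?_
    simp
  have h2 : JJ S x = ∑ u : ZMod d, (S.filter (fun i => x i = u)).card ^ 2 := by
    unfold JJ
    rw [Finset.card_eq_sum_card_fiberwise (f := fun p : ι × ι => x p.1) (t := Finset.univ)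
      (fun p _ => Finset.mem_coe.2 (Finset.mem_univ _))]
    apply Finset.sum_congr rfl
    intro u _
    rw [sq, ← Finset.card_product]
    congr 1
    ext p
    simp only [Finset.mem_filter, Finset.mem_product]
    constructor
    · rintro ⟨⟨⟨h1, h2⟩, h3⟩, h4⟩
      exact ⟨⟨h1, h4⟩, h2, h3 ▸ h4⟩
    · rintro ⟨⟨h1, h4⟩, h2, h3⟩
      exact ⟨⟨⟨h1, h2⟩, h4.trans h3.symm⟩, h4⟩
  rw [h2]
  push_cast
  apply Finset.sum_le_sum
  intro u _
  gcongr
  exact h1 u

theorem bil_coll {ι : Type} {d : ℕ} [NeZero d] (S : Finset ι) (x : ι → ZMod d) (w : ι → ℂ)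
    (F : ZMod d → ℂ) :
    ∑ i ∈ S, w i * F (x i) = ∑ u : ZMod d, (∑ i ∈ S.filter (fun i => x i = u), w i) * F u := by
  rw [← Finset.sum_fiberwise_of_maps_to (s := S) (t := Finset.univ) (g := x)
    (fun i _ => Finset.mem_univ _)]
  apply Finset.sum_congr rfl
  intro u _
  rw [Finset.sum_mul]
  apply Finset.sum_congr rfl
  intro i hi
  rw [(Finset.mem_filter.1 hi).2]

theorem st_BIL : ST_BIL := by
  unfold ST_BIL
  intro ι κ d _ X Y x y α β b hb hα hβ
  have e1 : ∑ i ∈ X, ∑ j ∈ Y, α i * β j * ed (b * x i * y j) =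
      ∑ u : ZMod d, (∑ i ∈ X.filter (fun i => x i = u), α i) *
        (∑ v : ZMod d, (∑ j ∈ Y.filter (fun j => y j = v), β j) * ed (b * u * v)) := by
    rw [← bil_coll X x α (fun u => ∑ v : ZMod d, (∑ j ∈ Y.filter (fun j => y j = v), β j) *
      ed (b * u * v))]
    apply Finset.sum_congr rfl
    intro i _
    rw [← bil_coll Y y β (fun v => ed (b * x i * v)), Finset.mul_sum]
    apply Finset.sum_congr rfl
    intro j _
    ring
  rw [e1]
  have h1 : ‖∑ u : ZMod d, (∑ i ∈ X.filter (fun i => x i = u), α i) *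
        (∑ v : ZMod d, (∑ j ∈ Y.filter (fun j => y j = v), β j) * ed (b * u * v))‖ ≤
      ∑ u : ZMod d, ‖∑ i ∈ X.filter (fun i => x i = u), α i‖ *
        ‖∑ v : ZMod d, (∑ j ∈ Y.filter (fun j => y j = v), β j) * ed (b * u * v)‖ := by
    refine (norm_sum_le _ _).trans (le_of_eq ?_)
    apply Finset.sum_congr rfl
    intro u _
    rw [norm_mul]
  have h2 := Finset.sum_mul_sq_le_sq_mul_sq (Finset.univ : Finset (ZMod d))
    (fun u => ‖∑ i ∈ X.filter (fun i => x i = u), α i‖)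
    (fun u => ‖∑ v : ZMod d, (∑ j ∈ Y.filter (fun j => y j = v), β j) * ed (b * u * v)‖)
  have h3 := bil_fib X x α hα
  have h4 := bil_fib Y y β hβ
  rw [bil_par b hb] at h2
  calc _ ≤ (∑ u : ZMod d, ‖∑ i ∈ X.filter (fun i => x i = u), α i‖ *
        ‖∑ v : ZMod d, (∑ j ∈ Y.filter (fun j => y j = v), β j) * ed (b * u * v)‖) ^ 2 := by
        gcongr
    _ ≤ _ := h2
    _ ≤ (JJ X x : ℝ) * ((d : ℝ) * (JJ Y y : ℝ)) := by gcongr
    _ = _ := by ring

end Pool.Agent.Helper16.MD
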