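import Pool.Agent.Helper16.MD.Stmts

set_option autoImplicit false

open Finset Filter
open scoped ComplexConjugate

namespace Pool.Agent.Helper16.MD

theorem esc_ev (C : ℝ) (A : ℕ) (δ : ℝ) (hδ : 0 < δ) :
    ∀ᶠ n : ℕ in atTop, C * (n : ℝ) ^ A ≤ δ * 2 ^ n := by
  have h := tendsto_pow_const_div_const_pow_of_one_lt A (r := (2 : ℝ)) (by norm_num)
  have h2 : Tendsto (fun n : ℕ => C * ((n : ℝ) ^ A / 2 ^ n)) atTop (nhds (C * 0)) :=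
    h.const_mul C
  rw [mul_zero] at h2
  have h3 := h2.eventually (Iic_mem_nhds hδ)
  filter_upwards [h3] with n hn
  have hn2 : C * ((n : ℝ) ^ A / 2 ^ n) ≤ δ := hn
  rw [← mul_div_assoc, div_le_iff₀ (by positivity)] at hn2
  exact hn2

/-- the main estimate -/
theorem esc_size (K t l i j k : ℕ) (d q1 q2 q3 : ℝ) (ht : t ≤ K) (hl : l ≤ K) (hi : 1 ≤ i)
    (hj : 1 ≤ j) (hk : 5 * (i + j) ≤ k) (hkK : k ≤ K * i) (hd0 : 0 ≤ d)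
    (h1 : (2 : ℝ) ^ i ≤ 4 * i * q1) (h2 : (2 : ℝ) ^ j ≤ 4 * j * q2)
    (h3 : (2 : ℝ) ^ k ≤ 4 * k * q3) (hq1 : 0 ≤ q1) (hq2 : 0 ≤ q2) (hq3 : 0 ≤ q3)
    (hdt : d ≤ (t + 1) * 2 ^ ((i + 1) * (2 * t + 1)))
    (hdl : d ≤ 4 * (l + 1) * 2 ^ k * 2 ^ ((j + 1) * (4 * l + 3))) :
    d ^ 2 * 2 ^ (4 * i + 2 * j) ≤ (q1 ^ t * q2 ^ (2 * l) * q3) ^ 2 *
      (4 ^ (2 * K) * 4 ^ (4 * K) * (16 * (K : ℝ) ^ 2) * (K + 1) * (4 * (K + 1)) *
        2 ^ (6 * K + 4) * (i : ℝ) ^ (2 * K + 2) * (j : ℝ) ^ (4 * K)) := by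
  have hi1 : (1 : ℝ) ≤ i := by exact_mod_cast hi
  have hj1 : (1 : ℝ) ≤ j := by exact_mod_cast hj
  have htK : (t : ℝ) ≤ K := by exact_mod_cast ht
  have hlK : (l : ℝ) ≤ K := by exact_mod_cast hl
  have hkK' : (k : ℝ) ≤ K * i := by exact_mod_cast hkK
  -- powers of `2`
  have a1 : (2 : ℝ) ^ (2 * (i * t)) ≤ (4 * i) ^ (2 * t) * q1 ^ (2 * t) := by
    calc (2 : ℝ) ^ (2 * (i * t)) = (2 ^ i) ^ (2 * t) := by rw [← pow_mul]; congr 1; ring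
      _ ≤ (4 * i * q1) ^ (2 * t) := by gcongr
      _ = _ := by rw [mul_pow]
  have a2 : (2 : ℝ) ^ (4 * (j * l)) ≤ (4 * j) ^ (4 * l) * q2 ^ (4 * l) := by
    calc (2 : ℝ) ^ (4 * (j * l)) = (2 ^ j) ^ (4 * l) := by rw [← pow_mul]; congr 1; ring
      _ ≤ (4 * j * q2) ^ (4 * l) := by gcongr
      _ = _ := by rw [mul_pow]
  have a3 : (2 : ℝ) ^ (2 * k) ≤ (4 * k) ^ 2 * q3 ^ 2 := by
    calc (2 : ℝ) ^ (2 * k) = (2 ^ k) ^ 2 := by rw [← pow_mul]; congr 1; ring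
      _ ≤ (4 * k * q3) ^ 2 := by gcongr
      _ = _ := by rw [mul_pow]
  have b1 : d ≤ (K + 1) * 2 ^ (2 * (i * t)) * 2 ^ (i + 2 * K + 1) := by
    calc d ≤ (t + 1) * 2 ^ ((i + 1) * (2 * t + 1)) := hdt
      _ = (t + 1) * 2 ^ (2 * (i * t)) * 2 ^ (i + 2 * t + 1) := by
        rw [mul_assoc, ← pow_add]
        congr 2
        ring
      _ ≤ (K + 1) * 2 ^ (2 * (i * t)) * 2 ^ (i + 2 * K + 1) := by
        have : (2 : ℝ) ^ (i + 2 * t + 1) ≤ 2 ^ (i + 2 * K + 1) := by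
          apply pow_le_pow_right₀ (by norm_num)
          omega
        gcongr
  have b2 : d ≤ 4 * (K + 1) * 2 ^ (4 * (j * l)) * 2 ^ (k + 3 * j + 4 * K + 3) := by
    calc d ≤ 4 * (l + 1) * 2 ^ k * 2 ^ ((j + 1) * (4 * l + 3)) := hdl
      _ = 4 * (l + 1) * 2 ^ (4 * (j * l)) * 2 ^ (k + 3 * j + 4 * l + 3) := by
        rw [mul_assoc, mul_assoc (4 * ((l : ℝ) + 1)), ← pow_add, ← pow_add]
        congr 2
        ring
      _ ≤ 4 * (K + 1) * 2 ^ (4 * (j * l)) * 2 ^ (k + 3 * j + 4 * K + 3) := by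
        have : (2 : ℝ) ^ (k + 3 * j + 4 * l + 3) ≤ 2 ^ (k + 3 * j + 4 * K + 3) := by
          apply pow_le_pow_right₀ (by norm_num)
          omega
        gcongr
  have c1 : d ^ 2 ≤ ((K + 1) * 2 ^ (2 * (i * t)) * 2 ^ (i + 2 * K + 1)) *
      (4 * (K + 1) * 2 ^ (4 * (j * l)) * 2 ^ (k + 3 * j + 4 * K + 3)) := by
    rw [sq]
    exact mul_le_mul b1 b2 hd0 (by positivity)
  have c2 : ((K + 1) * 2 ^ (2 * (i * t)) * 2 ^ (i + 2 * K + 1)) *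
      (4 * (K + 1) * 2 ^ (4 * (j * l)) * 2 ^ (k + 3 * j + 4 * K + 3)) =
      2 ^ (2 * (i * t)) * 2 ^ (4 * (j * l)) * ((K + 1) * (4 * (K + 1)) *
        2 ^ (6 * K + 4) * 2 ^ (i + k + 3 * j) : ℝ) := by
    have e : (2 : ℝ) ^ (i + 2 * K + 1) * 2 ^ (k + 3 * j + 4 * K + 3) =
        2 ^ (6 * K + 4) * 2 ^ (i + k + 3 * j) := by
      rw [← pow_add, ← pow_add]
      congr 1
      ring
    linear_combination (2 ^ (2 * (i * t)) * 2 ^ (4 * (j * l)) * ((K + 1) * (4 * (K + 1)) : ℝ)) * e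
  rw [c2] at c1
  -- comparison of the exponents
  have c3 : (2 : ℝ) ^ (i + k + 3 * j) * 2 ^ (4 * i + 2 * j) ≤ 2 ^ (2 * k) := by
    rw [← pow_add]
    apply pow_le_pow_right₀ (by norm_num)
    omega
  have c4 : (4 * (i : ℝ)) ^ (2 * t) ≤ 4 ^ (2 * K) * (i : ℝ) ^ (2 * K) := by
    calc (4 * (i : ℝ)) ^ (2 * t) ≤ (4 * (i : ℝ)) ^ (2 * K) := by
          apply pow_le_pow_right₀ (by linarith only [hi1])
          omega
      _ = _ := by rw [mul_pow]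
  have c5 : (4 * (j : ℝ)) ^ (4 * l) ≤ 4 ^ (4 * K) * (j : ℝ) ^ (4 * K) := by
    calc (4 * (j : ℝ)) ^ (4 * l) ≤ (4 * (j : ℝ)) ^ (4 * K) := by
          apply pow_le_pow_right₀ (by linarith only [hj1])
          omega
      _ = _ := by rw [mul_pow]
  have c6 : (4 * (k : ℝ)) ^ 2 ≤ 16 * (K : ℝ) ^ 2 * (i : ℝ) ^ 2 := by
    calc (4 * (k : ℝ)) ^ 2 ≤ (4 * (K * i)) ^ 2 := by gcongr
      _ = _ := by ring
  calc d ^ 2 * 2 ^ (4 * i + 2 * j) ≤ (2 ^ (2 * (i * t)) * 2 ^ (4 * (j * l)) *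
        ((K + 1) * (4 * (K + 1)) * 2 ^ (6 * K + 4) * 2 ^ (i + k + 3 * j))) *
          2 ^ (4 * i + 2 * j) := by gcongr
    _ = (2 ^ (2 * (i * t)) * 2 ^ (4 * (j * l))) *
        ((K + 1) * (4 * (K + 1)) * 2 ^ (6 * K + 4)) *
          (2 ^ (i + k + 3 * j) * 2 ^ (4 * i + 2 * j)) := by ring
    _ ≤ (2 ^ (2 * (i * t)) * 2 ^ (4 * (j * l))) *
        ((K + 1) * (4 * (K + 1)) * 2 ^ (6 * K + 4)) * 2 ^ (2 * k) := by gcongr
    _ ≤ (((4 * i) ^ (2 * t) * q1 ^ (2 * t)) * ((4 * j) ^ (4 * l) * q2 ^ (4 * l))) *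
        ((K + 1) * (4 * (K + 1)) * 2 ^ (6 * K + 4)) * ((4 * k) ^ 2 * q3 ^ 2) := by gcongr
    _ ≤ (((4 ^ (2 * K) * (i : ℝ) ^ (2 * K)) * q1 ^ (2 * t)) *
        ((4 ^ (4 * K) * (j : ℝ) ^ (4 * K)) * q2 ^ (4 * l))) *
        ((K + 1) * (4 * (K + 1)) * 2 ^ (6 * K + 4)) *
          ((16 * (K : ℝ) ^ 2 * (i : ℝ) ^ 2) * q3 ^ 2) := by gcongr
    _ = _ := by
      have e1 : (q1 ^ t * q2 ^ (2 * l) * q3) ^ 2 = q1 ^ (2 * t) * q2 ^ (4 * l) * q3 ^ 2 := by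
        rw [mul_pow, mul_pow, ← pow_mul, ← pow_mul, show t * 2 = 2 * t by ring,
          show 2 * l * 2 = 4 * l by ring]
      have e2 : (i : ℝ) ^ (2 * K + 2) = (i : ℝ) ^ (2 * K) * (i : ℝ) ^ 2 := pow_add _ _ _
      rw [e1, e2]
      ring

theorem esc_YY (Q₂ Q₃ : Finset ℕ) (l : ℕ) : (YY Q₂ Q₃ l).card ≤ Q₃.card * Q₂.card ^ (2 * l) := by
  classical
  unfold YY
  rw [Finset.card_product]
  apply Nat.mul_le_mul_left
  refine (Finset.card_filter_le _ _).trans ?_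
  rw [Fintype.card_piFinset, Finset.prod_const, Finset.card_univ, Fintype.card_fin]

theorem st_ESC (h1 : ST_HOL) (h2 : ST_HOC) (h3 : ST_ENX) (h4 : ST_ENY) (h5 : ST_KMX)
    (h6 : ST_LMX) : ST_ESC := by
  unfold ST_ESC
  intro ε K hε
  obtain ⟨ε', hε'⟩ : ∃ ε' : ℝ, ε' = min ε 1 := ⟨_, rfl⟩
  have hε0 : 0 < ε' := by rw [hε']; exact lt_min hε one_pos
  have hε1 : ε' ≤ 1 := by rw [hε']; exact min_le_right _ _
  have hεε : ε' ≤ ε := by rw [hε']; exact min_le_left _ _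
  obtain ⟨η, hη⟩ : ∃ η : ℝ, η = ε' ^ (2 * K) / 2 := ⟨_, rfl⟩
  have hη0 : 0 < η := by rw [hη]; positivity
  have hη1 : η ≤ 1 := by
    have : ε' ^ (2 * K) ≤ 1 := pow_le_one₀ hε0.le hε1
    rw [hη]
    linarith only [this]
  obtain ⟨F, hF⟩ : ∃ F : ℝ, F = (K.factorial : ℝ) * ((2 * K).factorial : ℝ) := ⟨_, rfl⟩
  have hF0 : 0 < F := by rw [hF]; positivity
  obtain ⟨δ, hδ⟩ : ∃ δ : ℝ, δ = η ^ (2 * K) / (2 * F) := ⟨_, rfl⟩
  have hδ0 : 0 < δ := by rw [hδ]; positivity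
  obtain ⟨CK, hCK⟩ : ∃ CK : ℝ, CK = 4 ^ (2 * K) * 4 ^ (4 * K) * (16 * (K : ℝ) ^ 2) * (K + 1) *
      (4 * (K + 1)) * 2 ^ (6 * K + 4) := ⟨_, rfl⟩
  have hev := (esc_ev CK (2 * K + 2) (δ ^ 2) (by positivity)).and
    ((esc_ev 1 (4 * K) 1 one_pos).and ((esc_ev (4 * (2 * (K : ℝ)) ^ 2) 1 η hη0).and
      ((esc_ev ((K : ℝ) + 1) 0 1 one_pos).and (eventually_ge_atTop 1))))
  obtain ⟨I₀, hI₀⟩ := eventually_atTop.1 hev
  refine ⟨I₀, ?_⟩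
  intro i j k d _ Q₁ Q₂ Q₃ b hi hj hk hkI hkJ hdi hdj hd hb hQ1 hQ2 hQ3
  obtain ⟨A1, _, _, A4, A5⟩ := hI₀ i hi
  obtain ⟨_, B2, B3, _, B5⟩ := hI₀ j hj
  -- the orders
  have hpos : 0 < 2 ^ (2 * i) := by positivity
  have hdlow : ∀ e : ℕ, e + 2 * i ≤ 2 * k → 2 ^ e < d := by
    intro e he
    have g1 : 2 ^ e * 2 ^ (2 * i) ≤ 2 ^ (2 * k) := by
      rw [← pow_add]
      exact Nat.pow_le_pow_right (by norm_num) he
    exact Nat.lt_of_mul_lt_mul_right (lt_of_le_of_lt g1 hd)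
  obtain ⟨t, ht1, htK, htd, hdt⟩ := h5 K i d A5 (hdlow (i + 1) (by omega)) hdi
  obtain ⟨l, hl1, hlK, hld, hdl⟩ := h6 K j k d B5 (by
    have e : 4 * 2 ^ k * 2 ^ ((j + 1) * 3) = 2 ^ (2 + k + (j + 1) * 3) := by
      rw [pow_add, pow_add]
      norm_num
    rw [e]
    exact hdlow _ (by omega)) hdj
  obtain ⟨q1, hq1⟩ : ∃ q : ℝ, q = (Q₁.card : ℝ) := ⟨_, rfl⟩
  obtain ⟨q2, hq2⟩ : ∃ q : ℝ, q = (Q₂.card : ℝ) := ⟨_, rfl⟩
  obtain ⟨q3, hq3⟩ : ∃ q : ℝ, q = (Q₃.card : ℝ) := ⟨_, rfl⟩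
  have r1 : (2 : ℝ) ^ i ≤ 4 * i * q1 := by rw [hq1]; exact_mod_cast hQ1.2
  have r2 : (2 : ℝ) ^ j ≤ 4 * j * q2 := by rw [hq2]; exact_mod_cast hQ2.2
  have r3 : (2 : ℝ) ^ k ≤ 4 * k * q3 := by rw [hq3]; exact_mod_cast hQ3.2
  have hi1 : (1 : ℝ) ≤ i := by exact_mod_cast A5
  have hj1 : (1 : ℝ) ≤ j := by exact_mod_cast B5
  have p1 : 1 ≤ Q₁.card := by
    rcases Nat.eq_zero_or_pos Q₁.card with h | h
    · have := hQ1.2
      rw [h, mul_zero] at this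
      have h9 : 0 < 2 ^ i := by positivity
      omega
    · exact h
  have p2 : 1 ≤ Q₂.card := by
    rcases Nat.eq_zero_or_pos Q₂.card with h | h
    · have := hQ2.2
      rw [h, mul_zero] at this
      have h9 : 0 < 2 ^ j := by positivity
      omega
    · exact h
  have p3 : 1 ≤ Q₃.card := by
    rcases Nat.eq_zero_or_pos Q₃.card with h | h
    · have := hQ3.2
      rw [h, mul_zero] at this
      have h9 : 0 < 2 ^ k := by positivity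
      omega
    · exact h
  have g1 : 1 ≤ q1 := by rw [hq1]; exact_mod_cast p1
  have g2 : 1 ≤ q2 := by rw [hq2]; exact_mod_cast p2
  have g3 : 1 ≤ q3 := by rw [hq3]; exact_mod_cast p3
  have hq10 : 0 < q1 := by linarith only [g1]
  have hq20 : 0 < q2 := by linarith only [g2]
  have hq30 : 0 < q3 := by linarith only [g3]
  have hd0 : (0 : ℝ) ≤ d := Nat.cast_nonneg d
  have hsize := esc_size K t l i j k d q1 q2 q3 htK hlK A5 B5 hk hkI hd0 r1 r2 r3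
    hq10.le hq20.le hq30.le (by exact_mod_cast hdt) (by exact_mod_cast hdl)
  rw [← hCK] at hsize
  obtain ⟨N, hN⟩ : ∃ N : ℝ, N = q1 ^ t * q2 ^ (2 * l) * q3 := ⟨_, rfl⟩
  have hN0 : 0 < N := by rw [hN]; positivity
  rw [← hN] at hsize
  have hdN : (d : ℝ) ≤ N * δ := by
    have s1 : (i : ℝ) ^ (2 * K + 2) * CK ≤ δ ^ 2 * 2 ^ (4 * i) := by
      calc (i : ℝ) ^ (2 * K + 2) * CK = CK * (i : ℝ) ^ (2 * K + 2) := mul_comm _ _
        _ ≤ δ ^ 2 * 2 ^ i := A1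
        _ ≤ δ ^ 2 * 2 ^ (4 * i) := by
          have : (2 : ℝ) ^ i ≤ 2 ^ (4 * i) := pow_le_pow_right₀ (by norm_num) (by omega)
          gcongr
    have s2 : (j : ℝ) ^ (4 * K) ≤ 2 ^ (2 * j) := by
      calc (j : ℝ) ^ (4 * K) = 1 * (j : ℝ) ^ (4 * K) := (one_mul _).symm
        _ ≤ 1 * 2 ^ j := B2
        _ = 2 ^ j := one_mul _
        _ ≤ 2 ^ (2 * j) := pow_le_pow_right₀ (by norm_num) (by omega)
    have s3 : (d : ℝ) ^ 2 * 2 ^ (4 * i + 2 * j) ≤ (N * δ) ^ 2 * 2 ^ (4 * i + 2 * j) := by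
      calc (d : ℝ) ^ 2 * 2 ^ (4 * i + 2 * j) ≤ _ := hsize
        _ = N ^ 2 * (((i : ℝ) ^ (2 * K + 2) * CK) * (j : ℝ) ^ (4 * K)) := by ring
        _ ≤ N ^ 2 * ((δ ^ 2 * 2 ^ (4 * i)) * 2 ^ (2 * j)) := by gcongr
        _ = (N * δ) ^ 2 * 2 ^ (4 * i + 2 * j) := by rw [pow_add]; ring
    have s4 : (d : ℝ) ^ 2 ≤ (N * δ) ^ 2 := le_of_mul_le_mul_right s3 (by positivity)
    exact le_of_sq_le_sq s4 (by positivity)
  -- the energies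
  have htpow : t < 2 ^ i := by
    have h9 : ((K : ℝ) + 1) * (i : ℝ) ^ 0 ≤ 1 * 2 ^ i := A4
    rw [pow_zero, mul_one, one_mul] at h9
    have h10 : K + 1 ≤ 2 ^ i := by exact_mod_cast h9
    omega
  have E1 := h3 i t d Q₁ hQ1.1 ht1 htpow htd
  have E2 := h4 j k l d Q₂ Q₃ hQ2.1 hQ3.1 (by omega) hl1 hld
  obtain ⟨W, hW⟩ : ∃ W : ℝ, W =
      ‖∑ p ∈ Q₁, ∑ u ∈ YY Q₂ Q₃ l, ed (b * (p : ZMod d)⁻¹ * yv d l u)‖ := ⟨_, rfl⟩
  have hW0 : 0 ≤ W := by rw [hW]; exact norm_nonneg _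
  have H1 := h1 _ d t (YY Q₂ Q₃ l) (yv d l) Q₁ (fun p => (p : ZMod d)⁻¹) b ht1 hb
  rw [← hW] at H1
  have H2 := h2 d l Q₁ Q₂ Q₃ b hl1
  rw [← hW, ← hq1, ← hq2, ← hq3] at H2
  have E1' : (JK Q₁ (fun p : ℕ => (p : ZMod d)⁻¹) t : ℝ) ≤ t.factorial * q1 ^ t := by
    rw [hq1]
    exact_mod_cast E1
  have E2' : (JJ (YY Q₂ Q₃ l) (yv d l) : ℝ) ≤ (2 * l).factorial * q2 ^ (2 * l) * (2 * q3) := by
    have h9 : (JJ (YY Q₂ Q₃ l) (yv d l) : ℝ) ≤ (2 * l).factorial * q2 ^ (2 * l) * (q3 + 1) := by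
      rw [hq2, hq3]
      exact_mod_cast E2
    refine h9.trans ?_
    have : q3 + 1 ≤ 2 * q3 := by linarith only [g3]
    gcongr
  have E3 : ((YY Q₂ Q₃ l).card : ℝ) ≤ q3 * q2 ^ (2 * l) := by
    rw [hq2, hq3]
    exact_mod_cast esc_YY Q₂ Q₃ l
  have hfac : (t.factorial : ℝ) * ((2 * l).factorial : ℝ) ≤ F := by
    rw [hF]
    have f1 : (t.factorial : ℝ) ≤ (K.factorial : ℝ) := by
      exact_mod_cast Nat.factorial_le htK
    have f2 : ((2 * l).factorial : ℝ) ≤ ((2 * K).factorial : ℝ) := by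
      exact_mod_cast Nat.factorial_le (by omega)
    gcongr
  obtain ⟨M, hM⟩ : ∃ M : ℝ, M = q1 * (q3 * q2 ^ (2 * l)) := ⟨_, rfl⟩
  have hM0 : 0 < M := by rw [hM]; positivity
  have key : W ^ (2 * t) ≤ (η * M) ^ (2 * t) := by
    have k1 : W ^ (2 * t) ≤ (q3 * q2 ^ (2 * l)) ^ (2 * t - 2) * d * (t.factorial * q1 ^ t) *
        ((2 * l).factorial * q2 ^ (2 * l) * (2 * q3)) := by
      refine H1.trans ?_
      gcongr
    have k2 : (q3 * q2 ^ (2 * l)) ^ (2 * t - 2) * d * (t.factorial * q1 ^ t) *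
        ((2 * l).factorial * q2 ^ (2 * l) * (2 * q3)) ≤
        (q3 * q2 ^ (2 * l)) ^ (2 * t - 2) * (N * δ) * (t.factorial * q1 ^ t) *
        ((2 * l).factorial * q2 ^ (2 * l) * (2 * q3)) := by gcongr
    have k3 : (q3 * q2 ^ (2 * l)) ^ (2 * t - 2) * (N * δ) * (t.factorial * q1 ^ t) *
        ((2 * l).factorial * q2 ^ (2 * l) * (2 * q3)) =
        ((t.factorial : ℝ) * ((2 * l).factorial : ℝ)) * (2 * δ) * M ^ (2 * t) := by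
      have m1 : M ^ (2 * t) = q1 ^ (2 * t) * (q3 * q2 ^ (2 * l)) ^ (2 * t - 2) *
          (q3 * q2 ^ (2 * l)) ^ 2 := by
        rw [hM, mul_pow, mul_assoc, ← pow_add]
        congr 2
        omega
      have m2 : q1 ^ (2 * t) = q1 ^ t * q1 ^ t := by rw [← pow_add]; congr 1; ring
      rw [m1, m2, hN]
      ring
    have k4 : ((t.factorial : ℝ) * ((2 * l).factorial : ℝ)) * (2 * δ) ≤ η ^ (2 * K) := by
      calc ((t.factorial : ℝ) * ((2 * l).factorial : ℝ)) * (2 * δ) ≤ F * (2 * δ) := by gcongr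
        _ = η ^ (2 * K) := by
          rw [hδ]
          rw [show F * (2 * (η ^ (2 * K) / (2 * F))) = (2 * F) * (η ^ (2 * K) / (2 * F)) by ring,
            mul_div_cancel₀ _ (by positivity)]
    have k5 : η ^ (2 * K) ≤ η ^ (2 * t) := pow_le_pow_of_le_one hη0.le hη1 (by omega)
    calc W ^ (2 * t) ≤ _ := k1
      _ ≤ _ := k2
      _ = _ := k3
      _ ≤ η ^ (2 * t) * M ^ (2 * t) := by
        gcongr
        exact k4.trans k5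
      _ = (η * M) ^ (2 * t) := (mul_pow _ _ _).symm
  have hWM : W ≤ η * M := le_of_pow_le_pow_left₀ (by omega) (by positivity) key
  -- conclusion
  have hq2big : ((2 * l : ℕ) : ℝ) ^ 2 ≤ η * q2 := by
    have t1 : 4 * (2 * (K : ℝ)) ^ 2 * (j : ℝ) ≤ η * 2 ^ j := by
      have := B3
      rw [pow_one] at this
      exact this
    have t2 : 4 * (2 * (K : ℝ)) ^ 2 * (j : ℝ) ≤ η * (4 * j * q2) := by
      refine t1.trans ?_
      gcongr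
    have t3 : (4 * (j : ℝ)) * ((2 * (K : ℝ)) ^ 2) ≤ (4 * (j : ℝ)) * (η * q2) := by
      linarith only [t2]
    have t4 : (2 * (K : ℝ)) ^ 2 ≤ η * q2 := le_of_mul_le_mul_left t3 (by positivity)
    have t5 : ((2 * l : ℕ) : ℝ) ≤ 2 * K := by
      push_cast
      have : (l : ℝ) ≤ K := by exact_mod_cast hlK
      linarith only [this]
    calc ((2 * l : ℕ) : ℝ) ^ 2 ≤ (2 * (K : ℝ)) ^ 2 := by gcongr
      _ ≤ _ := t4
  have hfin : ‖S3 b Q₁ Q₂ Q₃‖ ^ (2 * l) ≤ (ε' * (q1 * q2 * q3)) ^ (2 * l) := by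
    have u1 : q2 * q2 ^ (2 * l - 1) = q2 ^ (2 * l) := by
      rw [← pow_succ']
      congr 1
      omega
    have u2 : (q1 * q3) * (q1 * q3) ^ (2 * l - 1) = (q1 * q3) ^ (2 * l) := by
      rw [← pow_succ']
      congr 1
      omega
    calc ‖S3 b Q₁ Q₂ Q₃‖ ^ (2 * l) ≤ (q1 * q3) ^ (2 * l - 1) *
          (W + q1 * q3 * ((2 * l : ℕ) : ℝ) ^ 2 * q2 ^ (2 * l - 1)) := H2
      _ ≤ (q1 * q3) ^ (2 * l - 1) * (η * M + q1 * q3 * (η * q2) * q2 ^ (2 * l - 1)) := by gcongr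
      _ = (2 * η) * (((q1 * q3) * (q1 * q3) ^ (2 * l - 1)) * q2 ^ (2 * l)) := by
        rw [hM, ← u1]
        ring
      _ = ε' ^ (2 * K) * (q1 * q2 * q3) ^ (2 * l) := by
        rw [u2, ← mul_pow, hη]
        rw [show q1 * q3 * q2 = q1 * q2 * q3 by ring]
        ring
      _ ≤ ε' ^ (2 * l) * (q1 * q2 * q3) ^ (2 * l) := by
        have : ε' ^ (2 * K) ≤ ε' ^ (2 * l) := pow_le_pow_of_le_one hε0.le hε1 (by omega)
        gcongr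
      _ = _ := (mul_pow _ _ _).symm
  have hlast : ‖S3 b Q₁ Q₂ Q₃‖ ≤ ε' * (q1 * q2 * q3) :=
    le_of_pow_le_pow_left₀ (by omega) (by positivity) hfin
  rw [← hq1, ← hq2, ← hq3]
  calc ‖S3 b Q₁ Q₂ Q₃‖ ≤ ε' * (q1 * q2 * q3) := hlast
    _ ≤ ε * (q1 * q2 * q3) := by gcongr
    _ = _ := by ring

end Pool.Agent.Helper16.MD
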