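import Pool.Agent.Helper16.MD.Stmts
import Pool.Agent.Helper38.MD.BIL

set_option autoImplicit false

open Finset Filter
open scoped ComplexConjugate

namespace Pool.Agent.Helper16.MD

theorem hol_ed_sum {d : ℕ} [NeZero d] {ι : Type} (s : Finset ι) (f : ι → ZMod d) :
    ed (∑ i ∈ s, f i) = ∏ i ∈ s, ed (f i) := by
  classical
  induction s using Finset.induction_on with
  | empty => rw [Finset.sum_empty, Finset.prod_empty, bil_ed_zero]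
  | insert a s ha ih => rw [Finset.sum_insert ha, Finset.prod_insert ha, bil_ed_add, ih]

theorem hol_pow {d : ℕ} [NeZero d] (Q : Finset ℕ) (x : ℕ → ZMod d) (b y : ZMod d) (k : ℕ) :
    (∑ p ∈ Q, ed (b * x p * y)) ^ k =
      ∑ t ∈ Fintype.piFinset (fun _ : Fin k => Q), ed (b * (∑ i, x (t i)) * y) := by
  have h := Finset.prod_univ_sum (fun _ : Fin k => Q) (fun (_ : Fin k) (p : ℕ) => ed (b * x p * y))
  rw [Finset.prod_const, Finset.card_univ, Fintype.card_fin] at h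
  rw [h]
  apply Finset.sum_congr rfl
  intro t _
  rw [← hol_ed_sum]
  congr 1
  rw [← Finset.sum_mul, ← Finset.mul_sum]

theorem hol_phase (z : ℂ) : ∃ ζ : ℂ, ‖ζ‖ ≤ 1 ∧ ((‖z‖ : ℝ) : ℂ) = ζ * z := by
  by_cases h : z = 0
  · exact ⟨0, by simp, by rw [h]; simp⟩
  · have hz : ((‖z‖ : ℝ) : ℂ) ≠ 0 := by
      rw [Complex.ofReal_ne_zero]
      exact norm_ne_zero_iff.2 h
    refine ⟨conj z / ((‖z‖ : ℝ) : ℂ), ?_, ?_⟩
    · rw [norm_div, RCLike.norm_conj, Complex.norm_real, norm_norm,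
        div_self (norm_ne_zero_iff.2 h)]
    · rw [div_mul_eq_mul_div, Complex.conj_mul', sq, mul_div_cancel_right₀ _ hz]

theorem st_HOL (h1 : ST_BIL) : ST_HOL := by
  unfold ST_HOL
  intro κ d k _ Y y Q x b hk hb
  obtain ⟨m, rfl⟩ : ∃ m, k = m + 1 := ⟨k - 1, by omega⟩
  obtain ⟨A, hA⟩ : ∃ A : κ → ℂ, ∀ j, A j = ∑ p ∈ Q, ed (b * x p * y j) := ⟨_, fun _ => rfl⟩
  have e1 : ∑ p ∈ Q, ∑ j ∈ Y, ed (b * x p * y j) = ∑ j ∈ Y, A j := by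
    rw [Finset.sum_comm]
    exact Finset.sum_congr rfl (fun j _ => (hA j).symm)
  rw [e1]
  choose ζ hζ1 hζ2 using fun j => hol_phase (A j ^ (m + 1))
  have h2 := h1 (Fin (m + 1) → ℕ) κ d (Fintype.piFinset (fun _ : Fin (m + 1) => Q)) Y
    (fun t => ∑ i, x (t i)) y (fun _ => 1) ζ b hb (fun _ => by simp) hζ1
  have e2 : ∑ t ∈ Fintype.piFinset (fun _ : Fin (m + 1) => Q), ∑ j ∈ Y,
      (1 : ℂ) * ζ j * ed (b * (∑ i, x (t i)) * y j) = ((∑ j ∈ Y, ‖A j‖ ^ (m + 1) : ℝ) : ℂ) := by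
    rw [Finset.sum_comm]
    push_cast
    apply Finset.sum_congr rfl
    intro j _
    have e3 : ((‖A j‖ : ℝ) : ℂ) ^ (m + 1) = ζ j * A j ^ (m + 1) := by
      rw [← hζ2 j, norm_pow]
      push_cast
      rfl
    rw [e3, hA j, hol_pow, Finset.mul_sum]
    apply Finset.sum_congr rfl
    intro t _
    ring
  rw [e2, Complex.norm_real, Real.norm_eq_abs, sq_abs] at h2
  have h3 : ‖∑ j ∈ Y, A j‖ ^ (m + 1) ≤ (Y.card : ℝ) ^ m * ∑ j ∈ Y, ‖A j‖ ^ (m + 1) := by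
    have h4 : ‖∑ j ∈ Y, A j‖ ≤ ∑ j ∈ Y, ‖A j‖ := norm_sum_le _ _
    calc ‖∑ j ∈ Y, A j‖ ^ (m + 1) ≤ (∑ j ∈ Y, ‖A j‖) ^ (m + 1) := by gcongr
      _ ≤ _ := pow_sum_le_card_mul_sum_pow (fun j _ => norm_nonneg _) m
  have h5 : ‖∑ j ∈ Y, A j‖ ^ (2 * (m + 1)) = (‖∑ j ∈ Y, A j‖ ^ (m + 1)) ^ 2 := by
    rw [← pow_mul, mul_comm]
  rw [h5]
  have h6 : (‖∑ j ∈ Y, A j‖ ^ (m + 1)) ^ 2 ≤
      ((Y.card : ℝ) ^ m * ∑ j ∈ Y, ‖A j‖ ^ (m + 1)) ^ 2 := by gcongr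
  refine h6.trans ?_
  have h7 : (Y.card : ℝ) ^ (2 * (m + 1) - 2) = ((Y.card : ℝ) ^ m) ^ 2 := by
    rw [← pow_mul]
    congr 1
    omega
  rw [h7, mul_pow]
  have h8 : ((JK Q x (m + 1) : ℕ) : ℝ) = ((JJ (Fintype.piFinset (fun _ : Fin (m + 1) => Q))
    (fun t => ∑ i, x (t i)) : ℕ) : ℝ) := rfl
  rw [h8]
  calc ((Y.card : ℝ) ^ m) ^ 2 * (∑ j ∈ Y, ‖A j‖ ^ (m + 1)) ^ 2 ≤
      ((Y.card : ℝ) ^ m) ^ 2 * ((d : ℝ) * (JJ (Fintype.piFinset (fun _ : Fin (m + 1) => Q))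
        (fun t => ∑ i, x (t i)) : ℕ) * (JJ Y y : ℕ)) := by gcongr
    _ = _ := by ring

end Pool.Agent.Helper16.MD
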