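import Pool.Agent.Helper16.MD.Stmts
import Pool.Agent.Helper38.MD.HOL

set_option autoImplicit false

open Finset Filter
open scoped ComplexConjugate

namespace Pool.Agent.Helper16.MD

/-- number of families with two equal entries -/
theorem hoc_pair (m : ℕ) (Q : Finset ℕ) (i i' : Fin (m + 1)) (h : i ≠ i') :
    ((Fintype.piFinset (fun _ : Fin (m + 1) => Q)).filter (fun t => t i = t i')).card ≤
      Q.card ^ m := by
  have hc : (Fintype.piFinset (fun _ : Fin m => Q)).card = Q.card ^ m := by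
    rw [Fintype.card_piFinset, Finset.prod_const, Finset.card_univ, Fintype.card_fin]
  rw [← hc]
  apply Finset.card_le_card_of_injOn (fun t => fun j => t (i'.succAbove j))
  · intro t ht
    have h1 := (Finset.mem_filter.1 ht).1
    rw [Finset.mem_coe, Fintype.mem_piFinset]
    intro j
    exact (Fintype.mem_piFinset.1 h1) _
  · intro t ht s hs hts
    have h1 := (Finset.mem_filter.1 ht).2
    have h2 := (Finset.mem_filter.1 hs).2
    have h3 : ∀ j, t (i'.succAbove j) = s (i'.succAbove j) := fun j => congrFun hts j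
    funext a
    by_cases ha : a = i'
    · obtain ⟨j, hj⟩ := Fin.exists_succAbove_eq h
      rw [ha, ← h1, ← h2, ← hj]
      exact h3 j
    · obtain ⟨j, hj⟩ := Fin.exists_succAbove_eq ha
      rw [← hj]
      exact h3 j

theorem hoc_noninj (m : ℕ) (Q : Finset ℕ) [DecidablePred (fun t : Fin (m + 1) → ℕ =>
    ¬ Function.Injective t)] :
    ((Fintype.piFinset (fun _ : Fin (m + 1) => Q)).filter
      (fun t => ¬ Function.Injective t)).card ≤ (m + 1) ^ 2 * Q.card ^ m := by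
  have hsub : (Fintype.piFinset (fun _ : Fin (m + 1) => Q)).filter
      (fun t => ¬ Function.Injective t) ⊆
      ((Finset.univ : Finset (Fin (m + 1) × Fin (m + 1))).filter (fun u => u.1 ≠ u.2)).biUnion
        (fun u => (Fintype.piFinset (fun _ : Fin (m + 1) => Q)).filter
          (fun t => t u.1 = t u.2)) := by
    intro t ht
    obtain ⟨h1, h2⟩ := Finset.mem_filter.1 ht
    rw [Function.Injective] at h2
    push Not at h2
    obtain ⟨a, b, hab, hne⟩ := h2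
    rw [Finset.mem_biUnion]
    exact ⟨(a, b), Finset.mem_filter.2 ⟨Finset.mem_univ _, hne⟩, Finset.mem_filter.2 ⟨h1, hab⟩⟩
  refine (Finset.card_le_card hsub).trans ?_
  refine (Finset.card_biUnion_le_card_mul _ _ (Q.card ^ m) ?_).trans ?_
  · intro u hu
    exact hoc_pair m Q u.1 u.2 (Finset.mem_filter.1 hu).2
  · apply Nat.mul_le_mul_right
    refine (Finset.card_filter_le _ _).trans ?_
    rw [Finset.card_univ, Fintype.card_prod, Fintype.card_fin, sq]

theorem hoc_eps {d : ℕ} [NeZero d] (Q : Finset ℕ) (b p r : ZMod d) (l : ℕ) :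
    ((‖∑ q ∈ Q, ed (b * p * (q : ZMod d)⁻¹ * r)‖ ^ (2 * l) : ℝ) : ℂ) =
      ∑ t ∈ Fintype.piFinset (fun _ : Fin (2 * l) => Q),
        ed (b * p * (r * ∑ i : Fin (2 * l), (if i.1 < l then 1 else -1) * (t i : ZMod d)⁻¹)) := by
  obtain ⟨A, hA⟩ : ∃ A : ℂ, A = ∑ q ∈ Q, ed (b * p * (q : ZMod d)⁻¹ * r) := ⟨_, rfl⟩
  have h1 : ∀ i : Fin (2 * l), ∑ q ∈ Q, ed ((if i.1 < l then 1 else -1) *
      (b * p * (q : ZMod d)⁻¹ * r)) = if i.1 < l then A else conj A := by
    intro i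
    by_cases hi : i.1 < l
    · simp only [hi, if_true, one_mul]
      exact hA.symm
    · simp only [hi, if_false]
      rw [hA, map_sum]
      apply Finset.sum_congr rfl
      intro q _
      rw [bil_ed_conj]
      congr 1
      ring
  have h2 : ∏ i : Fin (2 * l), (if i.1 < l then A else conj A) = ((‖A‖ ^ (2 * l) : ℝ) : ℂ) := by
    rw [Fin.prod_univ_eq_prod_range (fun i => if i < l then A else conj A) (2 * l), two_mul,
      Finset.prod_range_add]
    have a1 : ∏ x ∈ range l, (if x < l then A else conj A) = A ^ l := by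
      rw [Finset.prod_congr rfl (g := fun _ => A)]
      · rw [Finset.prod_const, Finset.card_range]
      · intro x hx
        rw [if_pos (Finset.mem_range.1 hx)]
    have a2 : ∏ x ∈ range l, (if l + x < l then A else conj A) = (conj A) ^ l := by
      rw [Finset.prod_congr rfl (g := fun _ => conj A)]
      · rw [Finset.prod_const, Finset.card_range]
      · intro x hx
        rw [if_neg (by omega)]
    rw [a1, a2, ← mul_pow, Complex.mul_conj']
    push_cast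
    rw [← pow_mul]
    congr 1
    omega
  rw [← hA, ← h2, ← Finset.prod_congr rfl (fun i _ => h1 i), Finset.prod_univ_sum]
  apply Finset.sum_congr rfl
  intro t _
  rw [← hol_ed_sum]
  congr 1
  rw [Finset.mul_sum, Finset.mul_sum]
  apply Finset.sum_congr rfl
  intro i _
  ring

theorem st_HOC : ST_HOC := by
  unfold ST_HOC
  intro d l _ Q₁ Q₂ Q₃ b hl
  classical
  obtain ⟨A, hA⟩ : ∃ A : ℕ → ℕ → ℂ, ∀ p r, A p r =
      ∑ q ∈ Q₂, ed (b * (p : ZMod d)⁻¹ * (q : ZMod d)⁻¹ * (r : ZMod d)⁻¹) := ⟨_, fun _ _ => rfl⟩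
  have e1 : S3 b Q₁ Q₂ Q₃ = ∑ u ∈ Q₁ ×ˢ Q₃, A u.1 u.2 := by
    unfold S3
    rw [Finset.sum_product]
    apply Finset.sum_congr rfl
    intro p _
    rw [Finset.sum_comm]
    apply Finset.sum_congr rfl
    intro r _
    rw [hA]
  rw [e1]
  obtain ⟨m, hm⟩ : ∃ m, 2 * l = m + 1 := ⟨2 * l - 1, by omega⟩
  have h3 : ‖∑ u ∈ Q₁ ×ˢ Q₃, A u.1 u.2‖ ^ (2 * l) ≤
      ((Q₁.card : ℝ) * Q₃.card) ^ (2 * l - 1) * ∑ u ∈ Q₁ ×ˢ Q₃, ‖A u.1 u.2‖ ^ (2 * l) := by
    have h4 : ‖∑ u ∈ Q₁ ×ˢ Q₃, A u.1 u.2‖ ≤ ∑ u ∈ Q₁ ×ˢ Q₃, ‖A u.1 u.2‖ := norm_sum_le _ _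
    have h5 : 2 * l - 1 = m := by omega
    rw [h5, hm]
    calc ‖∑ u ∈ Q₁ ×ˢ Q₃, A u.1 u.2‖ ^ (m + 1) ≤ (∑ u ∈ Q₁ ×ˢ Q₃, ‖A u.1 u.2‖) ^ (m + 1) := by
          gcongr
      _ ≤ ((Q₁ ×ˢ Q₃).card : ℝ) ^ m * ∑ u ∈ Q₁ ×ˢ Q₃, ‖A u.1 u.2‖ ^ (m + 1) :=
          pow_sum_le_card_mul_sum_pow (fun j _ => norm_nonneg _) m
      _ = _ := by
          rw [Finset.card_product]
          push_cast
          rfl
  refine h3.trans ?_
  apply mul_le_mul_of_nonneg_left _ (by positivity)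
  -- the sum of the powers
  obtain ⟨P, hP⟩ : ∃ P : Finset (Fin (2 * l) → ℕ), P = Fintype.piFinset (fun _ => Q₂) := ⟨_, rfl⟩
  have e2 : ((∑ u ∈ Q₁ ×ˢ Q₃, ‖A u.1 u.2‖ ^ (2 * l) : ℝ) : ℂ) =
      (∑ p ∈ Q₁, ∑ u ∈ YY Q₂ Q₃ l, ed (b * (p : ZMod d)⁻¹ * yv d l u)) +
      ∑ u ∈ Q₁ ×ˢ Q₃, ∑ t ∈ P.filter (fun t => ¬ Function.Injective t),
        ed (b * (u.1 : ZMod d)⁻¹ * yv d l (u.2, t)) := by
    have e3 : ∀ u ∈ Q₁ ×ˢ Q₃, ((‖A u.1 u.2‖ ^ (2 * l) : ℝ) : ℂ) =
        ∑ t ∈ P.filter (fun t => Function.Injective t),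
          ed (b * (u.1 : ZMod d)⁻¹ * yv d l (u.2, t)) +
        ∑ t ∈ P.filter (fun t => ¬ Function.Injective t),
          ed (b * (u.1 : ZMod d)⁻¹ * yv d l (u.2, t)) := by
      intro u _
      rw [Finset.sum_filter_add_sum_filter_not, hA,
        hoc_eps Q₂ b (u.1 : ZMod d)⁻¹ (u.2 : ZMod d)⁻¹ l, hP]
      rfl
    rw [Complex.ofReal_sum, Finset.sum_congr rfl e3, Finset.sum_add_distrib]
    congr 1
    rw [Finset.sum_product]
    apply Finset.sum_congr rfl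
    intro p _
    unfold YY
    rw [Finset.sum_product]
    apply Finset.sum_congr rfl
    intro r _
    rw [hP]
  have h6 : (∑ u ∈ Q₁ ×ˢ Q₃, ‖A u.1 u.2‖ ^ (2 * l) : ℝ) =
      ‖((∑ u ∈ Q₁ ×ˢ Q₃, ‖A u.1 u.2‖ ^ (2 * l) : ℝ) : ℂ)‖ := by
    rw [Complex.norm_real, Real.norm_eq_abs, abs_of_nonneg]
    exact Finset.sum_nonneg (fun _ _ => by positivity)
  rw [h6, e2]
  refine (norm_add_le _ _).trans ?_
  gcongr
  refine (norm_sum_le _ _).trans ?_
  have h7 : ∀ u ∈ Q₁ ×ˢ Q₃, ‖∑ t ∈ P.filter (fun t => ¬ Function.Injective t),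
      ed (b * (u.1 : ZMod d)⁻¹ * yv d l (u.2, t))‖ ≤
      ((2 * l : ℕ) : ℝ) ^ 2 * (Q₂.card : ℝ) ^ (2 * l - 1) := by
    intro u _
    refine (norm_sum_le _ _).trans ?_
    have h8 : ∑ t ∈ P.filter (fun t => ¬ Function.Injective t),
        ‖ed (b * (u.1 : ZMod d)⁻¹ * yv d l (u.2, t))‖ =
        ((P.filter (fun t => ¬ Function.Injective t)).card : ℝ) := by
      rw [Finset.sum_congr rfl (fun t _ => bil_ed_norm _), Finset.sum_const, nsmul_eq_mul, mul_one]
    rw [h8]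
    have h9 : (P.filter (fun t => ¬ Function.Injective t)).card ≤
        (2 * l) ^ 2 * Q₂.card ^ (2 * l - 1) := by
      rw [hP]
      clear h8 h6 e2 h3 hP
      revert hm
      generalize 2 * l = n
      intro hm
      subst hm
      exact hoc_noninj m Q₂
    exact_mod_cast h9
  refine (Finset.sum_le_sum h7).trans (le_of_eq ?_)
  rw [Finset.sum_const, nsmul_eq_mul, Finset.card_product]
  push_cast
  ring

end Pool.Agent.Helper16.MD
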