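import Pool.Agent.Helper16.MD.Stmts

set_option autoImplicit false

open Finset Filter

namespace Pool.Agent.Helper16.MD

theorem st_KMX : ST_KMX := by
  unfold ST_KMX
  intro K i d hi h1 h2
  have hK : 1 ≤ K := by
    rcases Nat.eq_zero_or_pos K with h | h
    · exfalso
      rw [h, zero_mul, pow_zero] at h2
      have : 1 ≤ 2 ^ (i + 1) := Nat.one_le_two_pow
      omega
    · exact h
  classical
  have hP1 : 1 * 2 ^ ((i + 1) * (2 * 1 - 1)) < d := by
    norm_num
    exact h1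
  have hg1 := Nat.le_findGreatest (P := fun k => k * 2 ^ ((i + 1) * (2 * k - 1)) < d) hK hP1
  have hg2 := Nat.findGreatest_spec (P := fun k => k * 2 ^ ((i + 1) * (2 * k - 1)) < d) hK hP1
  have hg3 := Nat.findGreatest_le (P := fun k => k * 2 ^ ((i + 1) * (2 * k - 1)) < d) K
  refine ⟨_, hg1, hg3, hg2, ?_⟩
  rcases Nat.lt_or_ge (Nat.findGreatest (fun k => k * 2 ^ ((i + 1) * (2 * k - 1)) < d) K) K
    with h | h
  · have h3 := Nat.findGreatest_is_greatest (P := fun k => k * 2 ^ ((i + 1) * (2 * k - 1)) < d)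
      (Nat.lt_succ_self _) h
    generalize Nat.findGreatest (fun k => k * 2 ^ ((i + 1) * (2 * k - 1)) < d) K = k at *
    have h4 := not_lt.1 h3
    have h5 : 2 * (k + 1) - 1 = 2 * k + 1 := by omega
    rw [Nat.succ_eq_add_one, h5] at h4
    exact h4
  · have h3 : Nat.findGreatest (fun k => k * 2 ^ ((i + 1) * (2 * k - 1)) < d) K = K :=
      le_antisymm hg3 h
    rw [h3]
    refine h2.trans ?_
    have h4 : 2 ^ (K * i) ≤ 2 ^ ((i + 1) * (2 * K + 1)) := by
      apply Nat.pow_le_pow_right (by norm_num)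
      nlinarith
    calc 2 ^ (K * i) ≤ 2 ^ ((i + 1) * (2 * K + 1)) := h4
      _ ≤ (K + 1) * 2 ^ ((i + 1) * (2 * K + 1)) := Nat.le_mul_of_pos_left _ (by omega)

theorem st_LMX : ST_LMX := by
  unfold ST_LMX
  intro K j k d hj h1 h2
  have hK : 1 ≤ K := by
    rcases Nat.eq_zero_or_pos K with h | h
    · exfalso
      rw [h, zero_mul, pow_zero] at h2
      have : 1 ≤ 4 * 2 ^ k * 2 ^ ((j + 1) * 3) := by
        have a1 : 1 ≤ 2 ^ k := Nat.one_le_two_pow
        have a2 : 1 ≤ 2 ^ ((j + 1) * 3) := Nat.one_le_two_pow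
        nlinarith
      omega
    · exact h
  classical
  have hP1 : 4 * 1 * 2 ^ k * 2 ^ ((j + 1) * (4 * 1 - 1)) < d := by
    norm_num
    exact h1
  have hg1 := Nat.le_findGreatest
    (P := fun l => 4 * l * 2 ^ k * 2 ^ ((j + 1) * (4 * l - 1)) < d) hK hP1
  have hg2 := Nat.findGreatest_spec
    (P := fun l => 4 * l * 2 ^ k * 2 ^ ((j + 1) * (4 * l - 1)) < d) hK hP1
  have hg3 := Nat.findGreatest_le (P := fun l => 4 * l * 2 ^ k * 2 ^ ((j + 1) * (4 * l - 1)) < d) K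
  refine ⟨_, hg1, hg3, hg2, ?_⟩
  rcases Nat.lt_or_ge (Nat.findGreatest
    (fun l => 4 * l * 2 ^ k * 2 ^ ((j + 1) * (4 * l - 1)) < d) K) K with h | h
  · have h3 := Nat.findGreatest_is_greatest
      (P := fun l => 4 * l * 2 ^ k * 2 ^ ((j + 1) * (4 * l - 1)) < d) (Nat.lt_succ_self _) h
    generalize Nat.findGreatest
      (fun l => 4 * l * 2 ^ k * 2 ^ ((j + 1) * (4 * l - 1)) < d) K = l at *
    have h4 := not_lt.1 h3
    have h5 : 4 * (l + 1) - 1 = 4 * l + 3 := by omega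
    rw [Nat.succ_eq_add_one, h5] at h4
    exact h4
  · have h3 : Nat.findGreatest
        (fun l => 4 * l * 2 ^ k * 2 ^ ((j + 1) * (4 * l - 1)) < d) K = K :=
      le_antisymm hg3 h
    rw [h3]
    refine h2.trans ?_
    have h4 : 2 ^ (K * j) ≤ 2 ^ ((j + 1) * (4 * K + 3)) := by
      apply Nat.pow_le_pow_right (by norm_num)
      nlinarith
    calc 2 ^ (K * j) ≤ 2 ^ ((j + 1) * (4 * K + 3)) := h4
      _ ≤ (4 * (K + 1) * 2 ^ k) * 2 ^ ((j + 1) * (4 * K + 3)) :=
        Nat.le_mul_of_pos_left _ (by positivity)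

end Pool.Agent.Helper16.MD
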